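import Mathlib

set_option autoImplicit false

namespace Pool.Agent.Results.MP_18d2fb_an.NeumannFails

open Filter Topology BoundedContinuousFunction

variable (K : Type) [RCLike K]

lemma bound (x : ℕ →ᵇ K) (n : ℕ) : ‖x (n + 1) / ((n : K) + 1)‖ ≤ ‖x‖ := by
  rw [norm_div]
  have h1 : ‖(n : K) + 1‖ = n + 1 := by
    have : (n : K) + 1 = ((n + 1 : ℕ) : K) := by push_cast; rfl
    rw [this, RCLike.norm_natCast]; push_cast; rfl
  rw [h1]
  exact (div_le_self (norm_nonneg _) (by simp)).trans (x.norm_coe_le_norm _)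

/-- the weighted backward shift on bounded sequences -/
noncomputable def V : (ℕ →ᵇ K) →L[K] (ℕ →ᵇ K) :=
  LinearMap.mkContinuous
    { toFun := fun x => ofNormedAddCommGroupDiscrete (fun n => x (n + 1) / ((n : K) + 1)) ‖x‖
        (bound K x)
      map_add' := fun x y => by ext n; simp [add_div]
      map_smul' := fun c x => by ext n; simp [mul_div_assoc] } 1
    (fun x => by
      rw [one_mul]
      exact (norm_le (norm_nonneg _)).2 (bound K x))

lemma V_apply (x : ℕ →ᵇ K) (n : ℕ) : V K x n = x (n + 1) / ((n : K) + 1) := rfl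

lemma V_pow (x : ℕ →ᵇ K) (m n : ℕ) :
    ‖(V K ^ m) x n‖ ≤ ‖x‖ * n.factorial / (n + m).factorial := by
  induction m generalizing n with
  | zero =>
    have : (n.factorial : ℝ) ≠ 0 := by positivity
    simpa [mul_div_assoc, this] using x.norm_coe_le_norm n
  | succ m ih =>
    rw [pow_succ', mul_apply_eq_comp, V_apply, norm_div]
    have h1 : ‖(n : K) + 1‖ = n + 1 := by
      have : (n : K) + 1 = ((n + 1 : ℕ) : K) := by push_cast; rfl
      rw [this, RCLike.norm_natCast]; push_cast; rfl
    rw [h1, div_le_iff₀ (by positivity)]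
    refine (ih (n + 1)).trans (le_of_eq ?_)
    rw [show n + 1 + m = n + (m + 1) by ring, Nat.factorial_succ n]
    push_cast
    ring

lemma V_norm (m : ℕ) : ‖V K ^ m‖ ≤ 1 / m.factorial := by
  apply ContinuousLinearMap.opNorm_le_bound _ (by positivity)
  intro x
  refine (norm_le (by positivity)).2 fun n => (V_pow K x m n).trans ?_
  have h1 : ((n.factorial * m.factorial : ℕ) : ℝ) ≤ (n + m).factorial := by
    exact_mod_cast Nat.le_of_dvd (Nat.factorial_pos _)
      (Nat.factorial_mul_factorial_dvd_factorial_add n m)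
  push_cast at h1
  rw [div_le_iff₀ (by positivity), one_div, mul_comm _ ‖x‖, mul_assoc]
  apply mul_le_mul_of_nonneg_left _ (norm_nonneg _)
  rw [← div_eq_inv_mul, le_div_iff₀ (by positivity)]
  exact h1

lemma resolvent_gen {X : Type} [NormedAddCommGroup X] [NormedSpace K X] [CompleteSpace X]
    (V : X →L[K] X) (hV : ∀ m : ℕ, ‖V ^ m‖ ≤ 1 / m.factorial) (μ : K) : ∃ R : X →L[K] X,
    (∀ z, R z - μ • R (V z) = z) ∧ ∀ z, R (V z) = V (R z) := by
  have hs : Summable fun m : ℕ => (μ • V) ^ m := by
    refine Summable.of_norm_bounded (Real.summable_pow_div_factorial ‖μ‖) fun m => ?_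
    rw [smul_pow, norm_smul, norm_pow, div_eq_mul_one_div]
    exact mul_le_mul_of_nonneg_left (hV m) (by positivity)
  have h1 := hs.tsum_pow_mul_one_sub
  have h2 := hs.one_sub_mul_tsum_pow
  generalize ∑' m : ℕ, (μ • V) ^ m = R at h1 h2
  have h3 : V * (1 - μ • V) = (1 - μ • V) * V := by
    simp [mul_sub, sub_mul]
  have h4 : R * V = V * R :=
    calc R * V = R * V * ((1 - μ • V) * R) := by rw [h2, mul_one]
      _ = R * (V * (1 - μ • V)) * R := by simp only [mul_assoc]
      _ = R * (1 - μ • V) * V * R := by rw [h3]; simp only [mul_assoc]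
      _ = V * R := by rw [h1, one_mul]
  exact ⟨R, fun z => by simpa using congrArg (fun T : X →L[K] X => T z) h1,
    fun z => congrArg (fun T : X →L[K] X => T z) h4⟩

/-- the projective limit of `V` -/
def E : Submodule K (ℕ → ℕ →ᵇ K) where
  carrier := {x | ∀ k, V K (x (k + 1)) = x k}
  add_mem' := fun ha hb k => by simp [ha k, hb k]
  zero_mem' := fun k => by simp
  smul_mem' := fun c x hx k => by simp [hx k]

lemma E_closed : IsClosed (E K : Set (ℕ → ℕ →ᵇ K)) := by
  change IsClosed {x : ℕ → ℕ →ᵇ K | ∀ k, V K (x (k + 1)) = x k}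
  simp only [Set.ofPred_forall]
  exact isClosed_iInter fun k => isClosed_eq (by fun_prop) (by fun_prop)

noncomputable def U : E K →L[K] E K where
  toFun x := ⟨fun k => x.1 (k + 1), fun k => x.2 (k + 1)⟩
  map_add' _ _ := rfl
  map_smul' _ _ := rfl
  cont := by
    apply Continuous.subtype_mk
    exact continuous_pi fun k => (continuous_apply (k + 1)).comp continuous_subtype_val

lemma U_iter (x : E K) (j k : ℕ) : ((U K)^[j] x).1 k = x.1 (k + j) := by
  induction j generalizing k with
  | zero => rfl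
  | succ j ih =>
    rw [Function.iterate_succ_apply']
    change ((U K)^[j] x).1 (k + 1) = _
    rw [ih, show k + 1 + j = k + (j + 1) by ring]

lemma bij (l : K) : Function.Bijective fun x : E K => x - l • U K x := by
  by_cases hl : l = 0
  · subst hl
    simp only [zero_smul, sub_zero]
    exact Function.bijective_id
  obtain ⟨R, h1', h2'⟩ := resolvent_gen K (V K) (V_norm K) l⁻¹
  constructor
  · intro x y hxy
    have h3 : ∀ k, (x - y).1 k = l • (x - y).1 (k + 1) := by
      intro k
      have := congrFun (congrArg Subtype.val hxy) k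
      change x.1 k - l • x.1 (k + 1) = y.1 k - l • y.1 (k + 1) at this
      change x.1 k - y.1 k = l • (x.1 (k + 1) - y.1 (k + 1))
      rw [smul_sub]
      linear_combination (exp := 1) this
    rw [← sub_eq_zero]
    generalize x - y = z at h3
    ext1
    funext k
    have h4 := h1' (z.1 (k + 1))
    rw [z.2 k, h3 k, map_smul, smul_smul, inv_mul_cancel₀ hl, one_smul, sub_self] at h4
    rw [h3 k, ← h4, smul_zero]
    rfl
  · intro x
    refine ⟨⟨fun k => -(l⁻¹ • R (V K (x.1 k))), fun k => ?_⟩, ?_⟩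
    · rw [map_neg, map_smul, ← h2', x.2 k]
    · ext1
      funext k
      change -(l⁻¹ • R (V K (x.1 k))) - l • -(l⁻¹ • R (V K (x.1 (k + 1)))) = x.1 k
      rw [x.2 k, smul_neg, smul_smul, mul_inv_cancel₀ hl, one_smul, ← h1' (x.1 k)]
      simp only [h1']
      have := h1' (x.1 k)
      linear_combination (exp := 1) this

noncomputable def x0 : E K :=
  ⟨fun k => ofNormedAddCommGroupDiscrete (fun n => if n = k then (k.factorial : K) else 0)
    ‖(k.factorial : K)‖ (fun n => by split_ifs <;> simp), fun k => by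
      ext n
      rw [V_apply]
      by_cases h : n = k
      · subst h
        have : (n : K) + 1 ≠ 0 := by exact_mod_cast Nat.succ_ne_zero n
        simp [Nat.factorial_succ, this]
      · simp [h]⟩

lemma diverges (l : K) (hl : l ≠ 0) (s : E K) :
    ¬ Tendsto (fun n => ∑ k ∈ Finset.range n, l ^ k • (U K)^[k] (x0 K)) atTop (𝓝 s) := by
  intro h
  have h1 : Tendsto (fun n => l ^ n • (U K)^[n] (x0 K)) atTop (𝓝 0) := by
    have := ((tendsto_add_atTop_iff_nat 1).2 h).sub h
    simpa [Finset.sum_range_succ] using this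
  have hc : Continuous fun x : E K => ‖x.1 0‖ :=
    ((continuous_apply 0).comp continuous_subtype_val).norm
  have h2 := (hc.tendsto 0).comp h1
  have h3 : ∀ n, ‖l‖ ^ n * n.factorial ≤ ‖(l ^ n • (U K)^[n] (x0 K)).1 0‖ := by
    intro n
    refine le_trans (le_of_eq ?_) (norm_coe_le_norm _ n)
    change _ = ‖l ^ n * ((U K)^[n] (x0 K)).1 0 n‖
    rw [U_iter]
    simp [x0]
  have h4 : Tendsto (fun n : ℕ => ‖l‖ ^ n * n.factorial) atTop (𝓝 0) :=
    squeeze_zero (fun n => by positivity) h3 (by simpa [Function.comp_def] using h2)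
  have h5 := h4.mul (Real.summable_pow_div_factorial ‖l‖⁻¹).tendsto_atTop_zero
  have h6 : (fun n : ℕ => ‖l‖ ^ n * n.factorial * (‖l‖⁻¹ ^ n / n.factorial)) = fun _ => (1 : ℝ) := by
    funext n
    have : ‖l‖ ≠ 0 := norm_ne_zero_iff.mpr hl
    have : (n.factorial : ℝ) ≠ 0 := by positivity
    field_simp
    rw [← mul_pow]
    simp [*]
  rw [h6] at h5
  have := tendsto_nhds_unique h5 tendsto_const_nhds
  simp at this

theorem result (K : Type) [RCLike K] :
    ∃ (E : Type) (_ : AddCommGroup E) (_ : Module K E) (_ : UniformSpace E)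
      (_ : IsUniformAddGroup E) (_ : CompleteSpace E) (_ : T2Space E)
      (p : ℕ → Seminorm K E) (_ : WithSeminorms p) (U : E →L[K] E),
      (∀ l : K, Function.Bijective fun x : E => x - l • U x) ∧
      ∃ x : E, ∀ l : K, l ≠ 0 → ∀ s : E,
        ¬ Tendsto (fun n => ∑ k ∈ Finset.range n, l ^ k • U^[k] x) atTop (𝓝 s) := by
  have hp := withSeminorms_pi (ι := ℕ) (E := fun _ => ℕ →ᵇ K)
    (fun _ => norm_withSeminorms K (ℕ →ᵇ K))
  have hq := Topology.IsInducing.withSeminorms hp (f := (E K).subtype) IsInducing.subtypeVal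
  let e : ℕ ≃ (_ : ℕ) × Fin 1 := (Equiv.sigmaUnique ℕ fun _ => Fin 1).symm
  exact ⟨E K, inferInstance, inferInstance, inferInstance, (E K).toAddSubgroup.isUniformAddGroup,
    (E_closed K).completeSpace_coe, inferInstance, _, hq.congr_equiv e, U K, bij K, x0 K,
    diverges K⟩

end Pool.Agent.Results.MP_18d2fb_an.NeumannFails
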